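import Pool.Agent.L7h71.UN.Stm

set_option autoImplicit false

/-! Project UN: PROC. -/

namespace Pool.Agent.L7h60.UN

open Set Filter Function
open Pool.Agent.L7h71.UN

section

variable {X K : Type} [Finite K]

theorem lim_ne {p : Ultrafilter X} {f g : X → K} (h : ∀ᶠ x in p, f x ≠ g x) : lim p f ≠ lim p g := by
  intro he
  obtain ⟨x, h1, h2, h3⟩ := (h.and ((lim_spec p f).and (lim_spec p g))).exists
  exact h1 (by rw [h2, h3, he])

end

/-- the extended type -/
theorem stepA {r : ℕ} {K V : Type} [Finite K] [Countable V] [Infinite V]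
    (hC : ∀ n, Comm r K n) (hF : S_FRP) {M : St r K V} (hM : ¬ Many M) {n : ℕ}
    {p : Ultrafilter (Fin n → V)} (hp : Free p) (h : ∀ᶠ b : Fin n → V in p, ¬ Gen M p b) :
    ∃ (T : Set (Fin r)) (P : Ultrafilter (Fin n ⊕ T → V)), Free P ∧
      (P.map fun w => w ∘ Sum.inl) = p ∧
      ∃ z : Fin r → V ⊕ (Fin n ⊕ T), lim P (fun w => M (sub z w)) ≠
        lim P fun w => lim P fun w' => M (sub z (Sum.elim (w ∘ Sum.inl) (w' ∘ Sum.inr))) := by
  classical
  obtain ⟨v0⟩ : Nonempty V := inferInstance
  have h1 : ∀ b : Fin n → V, ∃ z : Fin r → V ⊕ Fin n, Injective b → ¬ Gen M p b →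
      (∀ i j, z i ≠ Sum.inl (b j)) ∧ M (sub z b) ≠ lim p (fun x => M (sub z x)) := by
    intro b
    by_cases hb : Injective b ∧ ¬ Gen M p b
    · by_contra hcon
      push Not at hcon
      apply hb.2
      refine ⟨hb.1, fun z hz => ?_⟩
      by_contra hne
      exact hne ((hcon z).2.2 hz)
    · exact ⟨fun _ => Sum.inl v0, fun h2 h3 => absurd ⟨h2, h3⟩ hb⟩
  choose Z hZ using h1
  have hZ' : ∀ᶠ b in p, (∀ i j, Z b i ≠ Sum.inl (b j)) ∧
      M (sub (Z b) b) ≠ lim p (fun x => M (sub (Z b) x)) :=
    (hp.inj.and h).mono fun b hb => hZ b hb.1 hb.2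
  -- the pattern
  obtain ⟨c, hc⟩ := exists_lim p (fun b => (fun i => (Z b i).elim (fun _ => none) some :
    Fin r → Option (Fin n)))
  obtain ⟨H, hH⟩ : ∃ H : (Fin n → V) → Fin r → V,
    ∀ b i, H b i = (Z b i).elim id (fun _ => v0) := ⟨_, fun _ _ => rfl⟩
  obtain ⟨T, e, hT, he⟩ := hF (Fin n → V) (Fin r) V p H
  -- the places of variables are not in `T`
  have hTc : ∀ t : T, c t = none := by
    intro t
    by_contra hne
    obtain ⟨j, hj⟩ := Option.ne_none_iff_exists'.1 hne
    have h2 := hT.1 t v0
    rw [Ultrafilter.coe_map, eventually_map] at h2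
    obtain ⟨b, hb1, hb2⟩ := (h2.and hc).exists
    apply hb1
    have h3 := congrFun hb2 (t : Fin r)
    rw [hj] at h3
    change H b (t : Fin r) = v0
    rw [hH]
    cases hz : Z b (t : Fin r) with
    | inl a =>
      rw [hz] at h3
      simp at h3
    | inr a => rfl
  -- the values of the coordinates in `T`
  have hTv : ∀ᶠ b in p, ∀ t : T, Z b t = Sum.inl (H b t) := by
    refine hc.mono fun b hb t => ?_
    have h3 := congrFun hb (t : Fin r)
    rw [hTc t] at h3
    rw [hH]
    cases hz : Z b (t : Fin r) with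
    | inl a => rfl
    | inr a =>
      rw [hz] at h3
      simp at h3
  obtain ⟨z, hz⟩ : ∃ z : Fin r → V ⊕ (Fin n ⊕ T), ∀ i, z i = (c i).elim
    (Sum.map id Sum.inr (e i)) (fun j => Sum.inr (Sum.inl j)) := ⟨_, fun _ => rfl⟩
  have key : ∀ᶠ b in p, ∀ x : Fin n → V,
      sub z (Sum.elim x (fun t : T => H b t)) = sub (Z b) x := by
    refine (hc.and he).mono fun b hb x => ?_
    funext i
    have h3 := congrFun hb.1 i
    have h4 := hb.2 i
    simp only [sub]
    rw [hz]
    cases hci : c i with
    | none =>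
      rw [hci] at h3
      cases hzi : Z b i with
      | inl a =>
        rw [hH, hzi] at h4
        simp only [Option.elim_none, Sum.elim_inl, id_eq]
        change a = _ at h4
        rw [h4]
        cases e i with
        | inl a' => rfl
        | inr t => rfl
      | inr a =>
        rw [hzi] at h3
        simp at h3
    | some j =>
      rw [hci] at h3
      cases hzi : Z b i with
      | inl a =>
        rw [hzi] at h3
        simp at h3
      | inr a =>
        rw [hzi] at h3
        simp only [Sum.elim_inr, Option.some.injEq] at h3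
        rw [h3]
        rfl
  refine ⟨T, p.map (fun b => Sum.elim b (fun t : T => H b t)), ?_, ?_, z, ?_⟩
  · refine ⟨fun i a => ?_, fun i j hij => ?_⟩
    · rw [Ultrafilter.coe_map, eventually_map]
      cases i with
      | inl i => exact hp.1 i a
      | inr t =>
        have h2 := hT.1 t a
        rw [Ultrafilter.coe_map, eventually_map] at h2
        exact h2
    · rw [Ultrafilter.coe_map, eventually_map]
      cases i with
      | inl i =>
        cases j with
        | inl j => exact hp.2 i j (fun h => hij (by rw [h]))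
        | inr t =>
          refine (hZ'.and hTv).mono fun b hb => ?_
          intro h2
          apply hb.1.1 t i
          rw [hb.2 t]
          congr 1
          exact h2.symm
      | inr t =>
        cases j with
        | inl j =>
          refine (hZ'.and hTv).mono fun b hb => ?_
          intro h2
          apply hb.1.1 t j
          rw [hb.2 t]
          congr 1
        | inr t' =>
          have h2 := hT.2 t t' (fun h => hij (by rw [h]))
          rw [Ultrafilter.coe_map, eventually_map] at h2
          exact h2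
  · rw [Ultrafilter.map_map]
    have h2 : ((fun w : Fin n ⊕ T → V => w ∘ Sum.inl) ∘ fun b => Sum.elim b fun t : T => H b t) =
        id := by
      funext b
      rfl
    rw [h2, Ultrafilter.map_id]
  · rw [lim_map, lim_map]
    have hR : (fun b => lim (p.map (fun b => Sum.elim b (fun t : T => H b t))) fun w' =>
        M (sub z (Sum.elim ((Sum.elim b (fun t : T => H b t)) ∘ Sum.inl) (w' ∘ Sum.inr)))) =
        fun b => lim (p.map fun b' (t : T) => H b' t) fun y => M (sub z (Sum.elim b y)) := by
      funext b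
      rw [lim_map, lim_map]
      rfl
    rw [hR]
    have hT' : Finite T := inferInstance
    rw [hC (Nat.card (Fin n) + Nat.card T + 1) V M hM (Fin n) T (Nat.lt_succ_self _) p
      (p.map fun b' (t : T) => H b' t) hp hT z, lim_map]
    refine lim_ne ((hZ'.and key).mono fun b hb => ?_)
    rw [hb.2 b]
    have h5 : (fun x => M (sub z (Sum.elim x fun t : T => H b t))) = fun x => M (sub (Z b) x) := by
      funext x
      rw [hb.2 x]
    rw [h5]
    exact hb.1.2

/-- reindexing of connected types -/
theorem conn_equiv {r : ℕ} {K V ι κ : Type} [Finite K] {M : St r K V} {F : Set V}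
    {p : Ultrafilter (ι → V)} (h : Conn M F p) (e : κ ≃ ι) : Conn M F (p.map fun x => x ∘ e) := by
  classical
  intro I hI hI'
  obtain ⟨z, hz, hne⟩ := h (e '' I) (hI.image e) (by
    rw [← image_compl_eq e.bijective]
    exact hI'.image e)
  refine ⟨Sum.map id e.symm ∘ z, fun i a hia => ?_, ?_⟩
  · cases hzi : z i with
    | inl b =>
      rw [comp_apply, hzi] at hia
      simp only [Sum.map_inl, id_eq, Sum.inl.injEq] at hia
      rw [← hia]
      exact hz i b hzi
    | inr b =>
      rw [comp_apply, hzi] at hia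
      simp at hia
  · have h1 : ∀ x : ι → V, sub (Sum.map id e.symm ∘ z) (x ∘ e) = sub z x := by
      intro x
      funext i
      simp only [sub, comp_apply]
      cases z i with
      | inl b => rfl
      | inr b => simp
    have h2 : ∀ x x' : ι → V, (fun j => if j ∈ I then (x ∘ e) j else (x' ∘ e) j) =
        (fun j => if j ∈ e '' I then x j else x' j) ∘ e := by
      intro x x'
      funext j
      simp only [comp_apply]
      congr 1
      rw [mem_image_equiv, Equiv.symm_apply_apply]
    rw [lim_map, lim_map]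
    have h3 : (fun x : ι → V => lim (p.map fun x => x ∘ e) fun x' =>
        M (sub (Sum.map id e.symm ∘ z) fun j => if j ∈ I then (x ∘ e) j else x' j)) =
        fun x => lim p fun x' => M (sub z fun j => if j ∈ e '' I then x j else x' j) := by
      funext x
      rw [lim_map]
      congr 1
      funext x'
      rw [h2, h1]
    rw [h3]
    have h4 : (fun x : ι → V => M (sub (Sum.map id e.symm ∘ z) (x ∘ e))) = fun x => M (sub z x) := by
      funext x
      rw [h1]
    rw [h4]
    exact hne

/-- the value of a term with the pattern `π`, the parameters `f` and the values `y` -/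
def tm {r s : ℕ} {V : Type} (π : Fin r → Option (Fin s)) (f : Fin r → V) (y : Fin s → V) :
    Fin r → V := fun i => (π i).elim (f i) y

/-- the data of one step, for a pattern `π` -/
def Dat {r : ℕ} {K V : Type} [Finite K] (M : St r K V) (F : Finset V)
    (s : ℕ) (π : Fin r → Option (Fin s)) : Prop :=
  ∃ (f : Fin r → V) (θ θ' : Ultrafilter (Fin s → V)), Free θ ∧ Free θ' ∧
    (∀ f' : Fin r → V, (∀ i, f' i ∈ F) →
      lim θ (fun y => M (tm π f' y)) = lim θ' (fun y => M (tm π f' y))) ∧
    lim θ (fun y => M (tm π f y)) ≠ lim θ' (fun y => M (tm π f y))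

theorem Dat.mono {r : ℕ} {K V : Type} [Finite K] {M : St r K V} {F F' : Finset V} (h : F ⊆ F')
    {s : ℕ} {π : Fin r → Option (Fin s)} (hd : Dat M F' s π) : Dat M F s π := by
  obtain ⟨f, θ, θ', h1, h2, h3, h4⟩ := hd
  exact ⟨f, θ, θ', h1, h2, fun f' hf' => h3 f' fun i => h (hf' i), h4⟩

/-- the data from a free type and a separating term -/
theorem stepC {r : ℕ} {K V ι κ : Type} [Finite K] [Infinite V] [Finite ι] [Finite κ]
    {M : St r K V} {F : Finset V} {P : Ultrafilter (ι ⊕ κ → V)} (hP : Free P)
    (hF : ∀ z : Fin r → V ⊕ (ι ⊕ κ), (∀ i a, z i = Sum.inl a → a ∈ F) →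
      lim P (fun w => M (sub z w)) =
        lim P fun w => lim P fun w' => M (sub z (Sum.elim (w ∘ Sum.inl) (w' ∘ Sum.inr))))
    {z : Fin r → V ⊕ (ι ⊕ κ)} (hz : lim P (fun w => M (sub z w)) ≠
        lim P fun w => lim P fun w' => M (sub z (Sum.elim (w ∘ Sum.inl) (w' ∘ Sum.inr)))) :
    ∃ (s : Fin (r + 1)) (π : Fin r → Option (Fin s)), Dat M F s π := by
  classical
  obtain ⟨v0⟩ : Nonempty V := inferInstance
  -- the variables which occur in `z`
  obtain ⟨s, hs, a, ha, hza⟩ : ∃ (s : ℕ) (_ : s ≤ r) (a : Fin s → ι ⊕ κ), Injective a ∧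
      ∀ i w, z i = Sum.inr w → ∃ t, a t = w := by
    obtain ⟨S, hS⟩ : ∃ S : Finset (ι ⊕ κ), S = Finset.univ.biUnion
      (fun i : Fin r => (z i).elim (fun _ => (∅ : Finset (ι ⊕ κ))) (fun w => {w})) := ⟨_, rfl⟩
    refine ⟨S.card, ?_, fun t => (S.equivFin.symm t).1, ?_, ?_⟩
    · rw [hS]
      refine Finset.card_biUnion_le.trans ?_
      calc ∑ i : Fin r, ((z i).elim (fun _ => (∅ : Finset (ι ⊕ κ))) (fun w => {w})).card
          ≤ ∑ i : Fin r, 1 := by
            refine Finset.sum_le_sum fun i _ => ?_
            cases z i with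
            | inl b => simp
            | inr b => simp
        _ = r := by simp
    · intro t t' htt
      exact S.equivFin.symm.injective (Subtype.ext htt)
    · intro i w hw
      have hmem : w ∈ S := by
        rw [hS, Finset.mem_biUnion]
        exact ⟨i, Finset.mem_univ _, by rw [hw]; simp⟩
      exact ⟨S.equivFin ⟨w, hmem⟩, by simp⟩
  have h1 : ∀ i, ∃ (o : Option (Fin s)) (v : V), z i = o.elim (Sum.inl v) (fun t => Sum.inr (a t)) := by
    intro i
    cases hi : z i with
    | inl v => exact ⟨none, v, rfl⟩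
    | inr w =>
      obtain ⟨t, ht⟩ := hza i w hi
      exact ⟨some t, v0, by rw [← ht]; rfl⟩
  choose π f hπ using h1
  refine ⟨⟨s, Nat.lt_succ_of_le hs⟩, π, f, P.map (fun w => w ∘ a),
    P.bind fun w => P.map fun w' => Sum.elim (w ∘ Sum.inl) (w' ∘ Sum.inr) ∘ a, hP.map ha, ?_, ?_, ?_⟩
  · -- freeness
    have hdec : Free (P.bind fun w => P.map fun w' =>
        (Sum.elim (w ∘ Sum.inl) (w' ∘ Sum.inr) : ι ⊕ κ → V)) := by
      have e1 : ∀ Q : (ι ⊕ κ → V) → Prop, (∀ᶠ y in (P.bind fun w => P.map fun w' =>
          (Sum.elim (w ∘ Sum.inl) (w' ∘ Sum.inr) : ι ⊕ κ → V) : Ultrafilter (ι ⊕ κ → V)), Q y) ↔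
          ∀ᶠ w in (P : Filter (ι ⊕ κ → V)), ∀ᶠ w' in (P : Filter (ι ⊕ κ → V)),
            Q (Sum.elim (w ∘ Sum.inl) (w' ∘ Sum.inr)) := by
        intro Q
        change (∀ᶠ y in Filter.bind (P : Filter (ι ⊕ κ → V)) (fun w => ((P.map fun w' =>
          (Sum.elim (w ∘ Sum.inl) (w' ∘ Sum.inr) : ι ⊕ κ → V) : Ultrafilter (ι ⊕ κ → V)) :
            Filter (ι ⊕ κ → V))), Q y) ↔ _
        rw [eventually_bind]
        refine eventually_congr (Eventually.of_forall fun w => ?_)
        rw [Ultrafilter.coe_map, eventually_map]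
      refine ⟨fun i b => ?_, fun i j hij => ?_⟩
      · rw [e1]
        cases i with
        | inl i =>
          refine (hP.1 (Sum.inl i) b).mono fun w hw => Eventually.of_forall fun w' => hw
        | inr k =>
          refine Eventually.of_forall fun w => (hP.1 (Sum.inr k) b).mono fun w' hw => hw
      · rw [e1]
        cases i with
        | inl i =>
          cases j with
          | inl j =>
            exact (hP.2 _ _ hij).mono fun w hw => Eventually.of_forall fun w' => hw
          | inr k =>
            exact Eventually.of_forall fun w =>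
              (hP.1 (Sum.inr k) (w (Sum.inl i))).mono fun w' hw h => hw h.symm
        | inr k =>
          cases j with
          | inl j =>
            exact Eventually.of_forall fun w =>
              (hP.1 (Sum.inr k) (w (Sum.inl j))).mono fun w' hw h => hw h
          | inr k' =>
            exact Eventually.of_forall fun w => (hP.2 _ _ hij).mono fun w' hw => hw
    have h2 := hdec.map ha
    have h3 : ((P.bind fun w => P.map fun w' =>
        (Sum.elim (w ∘ Sum.inl) (w' ∘ Sum.inr) : ι ⊕ κ → V)).map fun x => x ∘ a) =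
        P.bind fun w => P.map fun w' => Sum.elim (w ∘ Sum.inl) (w' ∘ Sum.inr) ∘ a := by
      ext S
      rfl
    rw [← h3]
    exact h2
  · intro f' hf'
    have h2 : ∀ w : ι ⊕ κ → V, tm π f' (w ∘ a) =
        sub (fun i => (π i).elim (Sum.inl (f' i)) (fun t => Sum.inr (a t))) w := by
      intro w
      funext i
      simp only [tm, sub]
      cases π i with
      | none => rfl
      | some t => rfl
    have h3 := hF (fun i => (π i).elim (Sum.inl (f' i)) (fun t => Sum.inr (a t))) (by
      intro i b hb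
      cases hi : π i with
      | none =>
        rw [hi] at hb
        simp only [Option.elim_none, Sum.inl.injEq] at hb
        rw [← hb]
        exact hf' i
      | some t =>
        rw [hi] at hb
        simp at hb)
    rw [lim_map, lim_bind]
    calc lim P (fun w => M (tm π f' (w ∘ a)))
        = lim P (fun w => M (sub (fun i => (π i).elim (Sum.inl (f' i)) (fun t => Sum.inr (a t))) w)) := by
          congr 1
          funext w
          rw [h2]
      _ = _ := h3
      _ = _ := by
          congr 1
          funext w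
          rw [lim_map]
          congr 1
          funext w'
          rw [h2]
  · have h2 : ∀ w : ι ⊕ κ → V, tm π f (w ∘ a) = sub z w := by
      intro w
      funext i
      simp only [tm, sub]
      rw [hπ i]
      cases π i with
      | none => rfl
      | some t => rfl
    rw [lim_map, lim_bind]
    have h4 : (fun w => M (tm π f (w ∘ a))) = fun w => M (sub z w) := by
      funext w
      rw [h2]
    have h5 : (fun w : ι ⊕ κ → V => lim (P.map fun w' =>
        (Sum.elim (w ∘ Sum.inl) (w' ∘ Sum.inr) : ι ⊕ κ → V) ∘ a) fun y => M (tm π f y)) =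
        fun w : ι ⊕ κ → V => lim P fun w' => M (sub z (Sum.elim (w ∘ Sum.inl) (w' ∘ Sum.inr))) := by
      funext w
      rw [lim_map]
      congr 1
      funext w'
      rw [h2]
    rw [h4, h5]
    exact hz

/-- a pattern which works for all finite sets -/
theorem stepD {r : ℕ} {K V : Type} [Finite K] {M : St r K V} {F₀ : Finset V}
    (h : ∀ F : Finset V, F₀ ⊆ F → ∃ (s : Fin (r + 1)) (π : Fin r → Option (Fin s)), Dat M F s π) :
    ∃ (s : ℕ) (π : Fin r → Option (Fin s)), ∀ F : Finset V, F₀ ⊆ F → Dat M F s π := by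
  classical
  by_contra hcon
  push Not at hcon
  have h1 : ∀ x : (s : Fin (r + 1)) × (Fin r → Option (Fin s)), ∃ F : Finset V, F₀ ⊆ F ∧
      ¬ Dat M F x.1 x.2 := fun x => hcon x.1 x.2
  choose G hG1 hG2 using h1
  obtain ⟨s, π, hd⟩ := h (F₀ ∪ Finset.univ.biUnion G) Finset.subset_union_left
  refine hG2 ⟨s, π⟩ (hd.mono ?_)
  exact (Finset.subset_biUnion_of_mem G (Finset.mem_univ _)).trans Finset.subset_union_right

/-- a uniform pattern contradicts the absence of star configurations -/
theorem stepE {r : ℕ} {K V : Type} [Finite K] [Countable V] [Infinite V] (hS : ∀ n, Star r K n)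
    (hF : S_FRP) {M : St r K V} (hM : ¬ Many M) {F₀ : Finset V} {s : ℕ}
    {π : Fin r → Option (Fin s)} (h : ∀ F : Finset V, F₀ ⊆ F → Dat M F s π) : False := by
  classical
  have h1 : ∀ F : Finset V, ∃ (f : Fin r → V) (θ θ' : Ultrafilter (Fin s → V)), Free θ ∧
      Free θ' ∧ (∀ f' : Fin r → V, (∀ i, f' i ∈ F) →
      lim θ (fun y => M (tm π f' y)) = lim θ' (fun y => M (tm π f' y))) ∧
      lim θ (fun y => M (tm π f y)) ≠ lim θ' (fun y => M (tm π f y)) := fun F =>
    (h (F₀ ∪ F) Finset.subset_union_left).mono Finset.subset_union_right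
  choose f θ θ' h2 h3 h4 h5 using h1
  obtain ⟨G, hG0, hG⟩ : ∃ G : ℕ → Finset V, G 0 = F₀ ∧
      ∀ k, G (k + 1) = G k ∪ Finset.univ.image (f (G k)) :=
    ⟨fun k => Nat.rec F₀ (fun _ F => F ∪ Finset.univ.image (f F)) k, rfl, fun k => rfl⟩
  have hmono : Monotone G := monotone_nat_of_le_succ fun k => by
    rw [hG]
    exact Finset.subset_union_left
  have hfG : ∀ j k, j < k → ∀ i, f (G j) i ∈ G k := by
    intro j k hjk i
    refine hmono (Nat.succ_le_of_lt hjk) ?_
    rw [Nat.succ_eq_add_one, hG]
    exact Finset.mem_union_right _ (Finset.mem_image_of_mem _ (Finset.mem_univ i))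
  obtain ⟨U, hU⟩ : ∃ U : Ultrafilter ℕ, ∀ j : ℕ, ∀ᶠ k in (U : Filter ℕ), j < k :=
    ⟨Filter.hyperfilter ℕ, fun j => Nat.hyperfilter_le_atTop (Filter.eventually_gt_atTop j)⟩
  obtain ⟨T, e, hT, he⟩ := hF ℕ (Fin r) V U (fun k => f (G k))
  obtain ⟨τ, hτ⟩ : ∃ τ : Fin r → V ⊕ (T ⊕ Fin s), ∀ i, τ i = (π i).elim
    (Sum.map id Sum.inl (e i)) (fun j => Sum.inr (Sum.inr j)) := ⟨_, fun _ => rfl⟩
  have key : ∀ᶠ k in U, ∀ y : Fin s → V,
      sub τ (Sum.elim (fun t : T => f (G k) t) y) = tm π (f (G k)) y := by
    refine he.mono fun k hk y => ?_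
    funext i
    simp only [sub, tm]
    rw [hτ]
    cases π i with
    | none =>
      simp only [Option.elim_none]
      rw [hk i]
      cases e i with
      | inl a => rfl
      | inr t => rfl
    | some t => rfl
  have hT' : Finite T := inferInstance
  have s1 := hS (Nat.card T + Nat.card (Fin s) + 1) V M hM ℕ T (Fin s) (Nat.lt_succ_self _) U
    (fun k (t : T) => f (G k) t) (fun k => θ (G k)) hT (fun k => h2 (G k)) τ
  have s2 := hS (Nat.card T + Nat.card (Fin s) + 1) V M hM ℕ T (Fin s) (Nat.lt_succ_self _) U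
    (fun k (t : T) => f (G k) t) (fun k => θ' (G k)) hT (fun k => h3 (G k)) τ
  have hL : lim U (fun k => lim (θ (G k)) fun y => M (sub τ (Sum.elim (fun t : T => f (G k) t) y))) ≠
      lim U (fun k => lim (θ' (G k)) fun y => M (sub τ (Sum.elim (fun t : T => f (G k) t) y))) := by
    refine lim_ne (key.mono fun k hk => ?_)
    have e1 : (fun y => M (sub τ (Sum.elim (fun t : T => f (G k) t) y))) =
        fun y => M (tm π (f (G k)) y) := by
      funext y
      rw [hk y]
    rw [e1]
    exact h5 (G k)
  apply hL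
  rw [s1, s2]
  refine lim_congr (key.mono fun j hj => ?_)
  have e1 : (fun y => M (sub τ (Sum.elim (fun t : T => f (G j) t) y))) =
      fun y => M (tm π (f (G j)) y) := by
    funext y
    rw [hj y]
  rw [e1]
  refine lim_congr ((hU j).mono fun k hk => ?_)
  exact h4 (G k) (f (G j)) (hfG j k hk)

/-- **PROC** -/
theorem s_PROC (hF : S_FRP) (hStep : S_STEP) : S_PROC := by
  classical
  intro r K _ hC hS V _ _ M hM hB F₀ hR u hu
  by_contra hcon
  push Not at hcon
  have hcon' : ∀ (n : ℕ) (p : Ultrafilter (Fin n → V)) (i₀ : Fin n), Free p →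
      (p.map fun x => x i₀) = u → ∀ᶠ b : Fin n → V in p, ¬ Gen M p b := by
    intro n p i₀ hp hpu
    have h1 := hcon n p i₀ hp hpu
    first
    | exact h1
    | exact Ultrafilter.eventually_not.2 h1
  suffices hmain : ∀ F : Finset V, F₀ ⊆ F → ∃ (s : Fin (r + 1)) (π : Fin r → Option (Fin s)),
      Dat M F s π by
    obtain ⟨s, π, hd⟩ := stepD hmain
    exact stepE hS hF hM hd
  intro F hF0
  obtain ⟨B, hB⟩ := hB F
  -- a connected type with the maximal number of coordinates
  obtain ⟨n, ⟨p, i₀, hp, hpc, hpu⟩, hmax⟩ : ∃ n : ℕ, (∃ (p : Ultrafilter (Fin n → V)) (i₀ : Fin n),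
      Free p ∧ Conn M (F : Set V) p ∧ (p.map fun x => x i₀) = u) ∧
      ∀ m : ℕ, (∃ (p : Ultrafilter (Fin m → V)) (i₀ : Fin m),
      Free p ∧ Conn M (F : Set V) p ∧ (p.map fun x => x i₀) = u) → m ≤ n := by
    have h1 : ∃ m : ℕ, ∃ (p : Ultrafilter (Fin m → V)) (i₀ : Fin m),
        Free p ∧ Conn M (F : Set V) p ∧ (p.map fun x => x i₀) = u := by
      refine ⟨1, u.map (fun v _ => v), 0, ⟨fun i a => ?_, fun i j hij => ?_⟩, ?_, ?_⟩
      · rw [Ultrafilter.coe_map, eventually_map]
        exact hu a
      · exact absurd (Subsingleton.elim i j) hij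
      · intro I hI hI'
        obtain ⟨i, hi⟩ := hI
        obtain ⟨j, hj⟩ := hI'
        exact absurd (Subsingleton.elim i j ▸ hi) hj
      · rw [Ultrafilter.map_map]
        exact Ultrafilter.map_id u
    have hb : ∀ m : ℕ, (∃ (p : Ultrafilter (Fin m → V)) (i₀ : Fin m),
        Free p ∧ Conn M (F : Set V) p ∧ (p.map fun x => x i₀) = u) → m ≤ B := by
      rintro m ⟨p, i₀, hp, hpc, -⟩
      exact hB m p hp hpc
    exact ⟨_, Nat.findGreatest_spec (P := fun m => ∃ (p : Ultrafilter (Fin m → V)) (i₀ : Fin m),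
      Free p ∧ Conn M (F : Set V) p ∧ (p.map fun x => x i₀) = u) (hb _ h1.choose_spec)
      h1.choose_spec, fun m hm => Nat.le_findGreatest (hb m hm) hm⟩
  obtain ⟨T, P, hP, hPp, z, hz⟩ := stepA hC hF hM hp (hcon' n p i₀ hp hpu)
  have hT' : Finite T := inferInstance
  refine stepC (F := F) hP ?_ hz
  intro z' hz'
  by_contra hne
  obtain ⟨κ', hκ, hconn0⟩ := hStep r K hC V M hM F₀ F hR hF0 (Fin n) T P hP
    (by rw [hPp]; exact hpc) ⟨z', hz', hne⟩
  have hconn : Conn M (F : Set V)
      (P.map fun w => w ∘ (Sum.map id Subtype.val : Fin n ⊕ κ' → Fin n ⊕ T)) := by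
    refine (congrArg (Conn M (F : Set V)) (congrArg (fun g => P.map g) ?_)).mp hconn0
    funext w j
    cases j with
    | inl i => rfl
    | inr k => rfl
  have hfin : Finite κ' := inferInstance
  obtain ⟨N, ⟨e⟩⟩ := Finite.exists_equiv_fin (Fin n ⊕ κ')
  have hN : N = n + Nat.card κ' := by
    have h1 := Nat.card_congr e
    rw [Nat.card_sum, Nat.card_fin, Nat.card_fin] at h1
    exact h1.symm
  have hκ' : 0 < Nat.card κ' := by
    have : Nonempty κ' := hκ.to_subtype
    exact Nat.card_pos
  have h2 := hmax N ⟨_, e (Sum.inl i₀), Free.map (hP.map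
    (φ := (Sum.map id Subtype.val : Fin n ⊕ κ' → Fin n ⊕ T)) ?_) e.symm.injective, conn_equiv hconn e.symm, ?_⟩
  · omega
  · intro x y hxy
    rcases x with x | x <;> rcases y with y | y
    · simpa using hxy
    · simp at hxy
    · simp at hxy
    · simp only [Sum.map_inr, Sum.inr.injEq] at hxy
      rw [Subtype.ext hxy]
  · rw [Ultrafilter.map_map, Ultrafilter.map_map, ← hpu, ← hPp, Ultrafilter.map_map]
    congr 1
    funext w
    simp

end Pool.Agent.L7h60.UN
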